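import Pool.Agent.Helper6.LP.St

/-!
# Project LP, module SMA: the mean square for the small primes
-/

set_option autoImplicit false

noncomputable section

namespace Pool.Agent.Helper7.LP

open Finset
open Pool.Agent.Helper6.LP
open Pool.Agent.Helper60.LZ (js)
open Pool.Agent.Helper98.LM (QQ)

private lemma js_sq (t l : ℕ) : js t l * js t l ≤ 1 := by
  unfold js
  rcases jacobiSym.trichotomy ((t : ℤ) ^ 2 - 4) l with h | h | h <;> rw [h] <;> norm_num

private lemma pair_sum (hC : StCSM) {p P r J L : ℕ} (hp : 32 ≤ p) (hP : 1 ≤ P)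
    (hq : ∀ l : ℕ, l.Prime → l ∣ P → l ≤ p) (hr : 1 ≤ r) {l l' : ℕ} (hl : l ∈ QQ p L)
    (hl' : l' ∈ QQ p L) :
    ∑ j ∈ Icc 1 J, (js (r + P * j - 2) l / l) * (js (r + P * j - 2) l' / l') ≤
      (if l = l' then (J : ℝ) * ((l : ℝ) ^ 2)⁻¹ else 0) +
        (J * (((l : ℝ) ^ 2)⁻¹ * ((l' : ℝ) ^ 2)⁻¹) + 1) := by
  unfold QQ at hl hl'
  rw [mem_filter, mem_Ioc] at hl hl'
  obtain ⟨⟨hl1, hl2⟩, hlp⟩ := hl
  obtain ⟨⟨hl1', hl2'⟩, hlp'⟩ := hl'
  have hlpos : (0 : ℝ) < l := by exact_mod_cast hlp.pos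
  have hlpos' : (0 : ℝ) < l' := by exact_mod_cast hlp'.pos
  have e : ∑ j ∈ Icc 1 J, (js (r + P * j - 2) l / l) * (js (r + P * j - 2) l' / l') =
      (1 / ((l : ℝ) * l')) *
        ∑ j ∈ Icc 1 J, js (r + P * j - 2) l * js (r + P * j - 2) l' := by
    rw [mul_sum]
    refine sum_congr rfl fun j _ => ?_
    field_simp
  rw [e]
  by_cases h : l = l'
  · subst h
    rw [if_pos rfl]
    have h1 : ∑ j ∈ Icc 1 J, js (r + P * j - 2) l * js (r + P * j - 2) l ≤ (J : ℝ) := by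
      calc ∑ j ∈ Icc 1 J, js (r + P * j - 2) l * js (r + P * j - 2) l
          ≤ ∑ j ∈ Icc 1 J, (1 : ℝ) := sum_le_sum fun j _ => js_sq _ _
        _ = J := by simp
    have h2 : (1 / ((l : ℝ) * l)) *
        ∑ j ∈ Icc 1 J, js (r + P * j - 2) l * js (r + P * j - 2) l ≤
        (1 / ((l : ℝ) * l)) * J := mul_le_mul_of_nonneg_left h1 (by positivity)
    have h3 : (1 / ((l : ℝ) * l)) * J = (J : ℝ) * ((l : ℝ) ^ 2)⁻¹ := by
      field_simp
    have h4 : 0 ≤ (J : ℝ) * (((l : ℝ) ^ 2)⁻¹ * ((l : ℝ) ^ 2)⁻¹) := by positivity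
    linarith
  · rw [if_neg h]
    have h1 := hC P r l l' J hlp hlp' (by omega) (by omega) h
      (fun hd => by have := hq l hlp hd; omega) (fun hd => by have := hq l' hlp' hd; omega) hr hP
    have h2 := (le_abs_self _).trans h1
    have h3 : (1 / ((l : ℝ) * l')) *
        ∑ j ∈ Icc 1 J, js (r + P * j - 2) l * js (r + P * j - 2) l' ≤
        (1 / ((l : ℝ) * l')) * (J / ((l : ℝ) * l') + (l : ℝ) * l') :=
      mul_le_mul_of_nonneg_left h2 (by positivity)
    have h4 : (1 / ((l : ℝ) * l')) * (J / ((l : ℝ) * l') + (l : ℝ) * l') =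
        (J * (((l : ℝ) ^ 2)⁻¹ * ((l' : ℝ) ^ 2)⁻¹) + 1) := by
      field_simp
    linarith

theorem hSMA (hC : StCSM) : StSMA := by
  classical
  intro p P r J L hp hP hq hr hL
  have hJ0 : (0 : ℝ) ≤ J := Nat.cast_nonneg J
  by_cases hLp : L ≤ p
  · have hcs : ∀ y, cs p L y = 0 := by
      intro y
      unfold cs QQ
      rw [Ioc_eq_empty (by omega)]
      simp
    have : (Icc 1 J).filter (fun j : ℕ => 1 < |cs p L (r + P * j)|) = ∅ := by
      rw [filter_eq_empty_iff]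
      intro j _
      rw [hcs]
      norm_num
    rw [this]
    rw [card_empty, Nat.cast_zero]
    positivity
  have hLp' : p < L := not_le.1 hLp
  set Q := QQ p L with hQ
  set S : ℝ := ∑ l ∈ Q, ((l : ℝ) ^ 2)⁻¹ with hS
  have hS0 : 0 ≤ S := sum_nonneg fun l _ => by positivity
  have hS1 : S ≤ 1 / 32 := by
    have hp32 : (32 : ℝ) ≤ p := by exact_mod_cast hp
    calc S ≤ ∑ l ∈ Ioc p L, ((l : ℝ) ^ 2)⁻¹ :=
          sum_le_sum_of_subset_of_nonneg (filter_subset _ _) (fun l _ _ => by positivity)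
      _ ≤ (p : ℝ)⁻¹ - (L : ℝ)⁻¹ := sum_Ioc_inv_sq_le_sub (by omega) hLp'.le
      _ ≤ (p : ℝ)⁻¹ := by
          have : 0 ≤ (L : ℝ)⁻¹ := by positivity
          linarith
      _ ≤ 1 / 32 := by
          rw [inv_eq_one_div]
          exact one_div_le_one_div_of_le (by norm_num) hp32
  have hsum : ∑ j ∈ Icc 1 J, cs p L (r + P * j) ^ 2 ≤
      J * S + (J * (S * S) + (Q.card : ℝ) * Q.card) := by
    have e1 : ∀ j, cs p L (r + P * j) ^ 2 =
        ∑ l ∈ Q, ∑ l' ∈ Q, (js (r + P * j - 2) l / l) * (js (r + P * j - 2) l' / l') := by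
      intro j
      rw [sq]
      unfold cs
      rw [sum_mul_sum]
    calc ∑ j ∈ Icc 1 J, cs p L (r + P * j) ^ 2
        = ∑ j ∈ Icc 1 J, ∑ l ∈ Q, ∑ l' ∈ Q,
            (js (r + P * j - 2) l / l) * (js (r + P * j - 2) l' / l') :=
          sum_congr rfl fun j _ => e1 j
      _ = ∑ l ∈ Q, ∑ l' ∈ Q, ∑ j ∈ Icc 1 J,
            (js (r + P * j - 2) l / l) * (js (r + P * j - 2) l' / l') := by
          rw [sum_comm]
          refine sum_congr rfl fun l _ => ?_
          rw [sum_comm]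
      _ ≤ ∑ l ∈ Q, ∑ l' ∈ Q, ((if l = l' then (J : ℝ) * ((l : ℝ) ^ 2)⁻¹ else 0) +
            (J * (((l : ℝ) ^ 2)⁻¹ * ((l' : ℝ) ^ 2)⁻¹) + 1)) :=
          sum_le_sum fun l hl => sum_le_sum fun l' hl' => pair_sum hC hp hP hq hr hl hl'
      _ = J * S + (J * (S * S) + (Q.card : ℝ) * Q.card) := by
          simp only [sum_add_distrib]
          congr 1
          · rw [hS, mul_sum]
            refine sum_congr rfl fun l hl => ?_
            rw [sum_ite_eq, if_pos hl]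
          · congr 1
            · rw [hS, sum_mul_sum, mul_sum]
              refine sum_congr rfl fun l _ => ?_
              rw [mul_sum]
            · simp
  have hQL : Q.card ≤ L := by
    calc Q.card ≤ (Ioc p L).card := card_filter_le _ _
      _ = L - p := Nat.card_Ioc _ _
      _ ≤ L := Nat.sub_le _ _
  have h16 : 16 * L ^ 2 ≤ J := by
    have : 16 * L ^ 2 ≤ L * L ^ 2 := Nat.mul_le_mul_right _ (by omega)
    calc 16 * L ^ 2 ≤ L * L ^ 2 := this
      _ = L ^ 3 := by ring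
      _ ≤ J := hL
  have h16R : 16 * (L : ℝ) ^ 2 ≤ J := by exact_mod_cast h16
  have hQR : (Q.card : ℝ) * Q.card ≤ (L : ℝ) ^ 2 := by
    have : (Q.card : ℝ) ≤ L := by exact_mod_cast hQL
    rw [sq]
    exact mul_le_mul this this (by positivity) (by positivity)
  have hSS : S * S ≤ 1 / 32 * (1 / 32) := mul_le_mul hS1 hS1 hS0 (by norm_num)
  have hb1 : (J : ℝ) * S ≤ J * (1 / 32) := mul_le_mul_of_nonneg_left hS1 hJ0
  have hb2 : (J : ℝ) * (S * S) ≤ J * (1 / 32 * (1 / 32)) := mul_le_mul_of_nonneg_left hSS hJ0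
  have hcheb : (((Icc 1 J).filter (fun j : ℕ => 1 < |cs p L (r + P * j)|)).card : ℝ) ≤
      ∑ j ∈ Icc 1 J, cs p L (r + P * j) ^ 2 := by
    calc (((Icc 1 J).filter (fun j : ℕ => 1 < |cs p L (r + P * j)|)).card : ℝ)
        = ∑ j ∈ (Icc 1 J).filter (fun j : ℕ => 1 < |cs p L (r + P * j)|), (1 : ℝ) := by simp
      _ ≤ ∑ j ∈ (Icc 1 J).filter (fun j : ℕ => 1 < |cs p L (r + P * j)|),
            cs p L (r + P * j) ^ 2 := by
          refine sum_le_sum fun j hj => ?_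
          rw [mem_filter] at hj
          rw [← sq_abs]
          nlinarith [hj.2, abs_nonneg (cs p L (r + P * j))]
      _ ≤ _ := sum_le_sum_of_subset_of_nonneg (filter_subset _ _) (fun j _ _ => sq_nonneg _)
  linarith

end Pool.Agent.Helper7.LP
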